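import Mathlib
import Pool.Agent.Helper60.JumGlue

/-!
# The exponent `3` in the triangle removal lemma for jumbled graphs is optimal

For every real `a < 3` the statement `R(a)` fails.  In particular the conjecture `R(2)` is false.
-/

namespace Pool.Agent.Results.MP_9a0e6b_co.ExponentThreeOptimal

open Finset

open Classical in
/-- The number of ordered pairs `(x, y)` in `X × Y` with `xy` an edge of `G`. -/
noncomputable def edgePairs {n : ℕ} (G : SimpleGraph (Fin n)) (X Y : Finset (Fin n)) : ℕ :=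
  ((X ×ˢ Y).filter fun q => G.Adj q.1 q.2).card

/-- `G` is `(p, β)`-jumbled. -/
def IsJumbled {n : ℕ} (p β : ℝ) (G : SimpleGraph (Fin n)) : Prop :=
  ∀ X Y : Finset (Fin n),
    |(edgePairs G X Y : ℝ) - p * X.card * Y.card| ≤ β * Real.sqrt (X.card * Y.card)

open Classical in
/-- The number of triangles of `H`. -/
noncomputable def triangleCount {n : ℕ} (H : SimpleGraph (Fin n)) : ℕ :=
  (univ.filter fun t : Finset (Fin n) => H.IsNClique 3 t).card

/-- The statement `R(a)`. -/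
def RemovalStatement (a : ℝ) : Prop :=
  ∀ ε : ℝ, 0 < ε → ∃ δ c : ℝ, 0 < δ ∧ 0 < c ∧
    ∀ (n : ℕ) (p β : ℝ), 0 < p → p ≤ 1 → 0 < β → β ≤ c * p ^ a * n →
      ∀ G : SimpleGraph (Fin n), IsJumbled p β G →
        ∀ H : SimpleGraph (Fin n), H ≤ G → (triangleCount H : ℝ) ≤ δ * p ^ 3 * n ^ 3 →
          ∃ D : Finset (Sym2 (Fin n)), (D : Set (Sym2 (Fin n))) ⊆ H.edgeSet ∧
            (D.card : ℝ) ≤ ε * p * n ^ 2 ∧ (H.deleteEdges (D : Set (Sym2 (Fin n)))).CliqueFree 3

open Pool.Agent.Helper60.Jum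

lemma edgePairs_eq {n : ℕ} (S : Signed (Fin n)) (X Y : Finset (Fin n)) :
    (edgePairs S.G X Y : ℝ) = ∑ v ∈ X, ∑ w ∈ Y, S.s v w ^ 2 := by
  classical
  unfold edgePairs
  rw [card_filter, Nat.cast_sum, sum_product]
  refine sum_congr rfl fun v _ => sum_congr rfl fun w _ => ?_
  by_cases h : S.s v w = 0
  · have h' : ¬ S.G.Adj v w := fun h2 => h2 h
    rw [if_neg h', h]; norm_num
  · have h' : S.G.Adj v w := h
    rw [if_pos h']
    rcases S.val v w with h1 | h1 | h1
    · exact absurd h1 h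
    · rw [h1]; norm_num
    · rw [h1]; norm_num

/-- For every real `a < 3` the statement `R(a)` fails. -/
theorem result : ∀ a : ℝ, a < 3 → ¬ RemovalStatement a := by
  intro a ha hR
  obtain ⟨δ, c, hδ, hc, hR⟩ := hR (1 / 50) (by norm_num)
  -- choose `l`
  have ht1 : Filter.Tendsto (fun l : ℕ => (2 : ℝ) ^ l) Filter.atTop Filter.atTop :=
    tendsto_pow_atTop_atTop_of_one_lt (by norm_num)
  have ht2 : Filter.Tendsto (fun l : ℕ => ((2 : ℝ) ^ l) ^ (3 - a)) Filter.atTop Filter.atTop :=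
    (tendsto_rpow_atTop (by linarith)).comp ht1
  obtain ⟨l, hl3, hl1, hl2⟩ := ((Filter.eventually_ge_atTop 3).and
    ((ht1.eventually_ge_atTop (1 / δ)).and (ht2.eventually_ge_atTop (2 / c)))).exists
  obtain ⟨n, S, Q, hQ, hn, hkap, hlam, hK, hSig, hjum⟩ := construction l hl3
  rw [← hQ] at hl1 hl2
  have hQ8 : 8 ≤ Q := by
    rw [hQ]
    calc (8 : ℝ) = 2 ^ 3 := by norm_num
      _ ≤ 2 ^ l := pow_le_pow_right₀ (by norm_num) hl3
  have hQ0 : 0 < Q := by linarith
  have hδQ : 1 ≤ δ * Q := by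
    rw [div_le_iff₀ hδ] at hl1
    linarith
  have hcQ : 2 ≤ c * Q ^ (3 - a) := by
    rw [div_le_iff₀ hc] at hl2
    linarith
  have hlk : S.lam - S.kap = Q ^ 3 - 3 * Q ^ 2 + 2 * Q := by rw [hkap, hlam]; ring
  have hlk0 : 0 < S.lam - S.kap := by
    rw [hlk]
    have : Q ^ 3 - 3 * Q ^ 2 + 2 * Q = Q * ((Q - 1) * (Q - 2)) := by ring
    rw [this]
    have h1 : 0 < Q - 1 := by linarith
    have h2 : 0 < Q - 2 := by linarith
    positivity
  have hlkle : S.lam - S.kap ≤ Q ^ 3 := by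
    rw [hlk]; nlinarith
  have hK0 : 0 ≤ S.K := by
    unfold Signed.K
    exact sum_nonneg fun _ _ => sum_nonneg fun _ _ => sq_nonneg _
  obtain ⟨D, hD1, hD2, hD3⟩ := hR n (Q⁻¹) (Q ^ 3 + Q ^ 2) (inv_pos.2 hQ0)
    (inv_le_one_of_one_le₀ (by linarith)) (by positivity) (by
      have h1 : c * Q⁻¹ ^ a * n = c * Q ^ (3 - a) * Q ^ 3 := by
        rw [hn, Real.inv_rpow hQ0.le, ← Real.rpow_neg hQ0.le]
        have : Q ^ (3 - a) = Q ^ (-a) * Q ^ 3 := by
          rw [show 3 - a = -a + 3 by ring, Real.rpow_add hQ0]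
          norm_num
        rw [this]; ring
      rw [h1]
      have h2 : 2 * Q ^ 3 ≤ c * Q ^ (3 - a) * Q ^ 3 :=
        mul_le_mul_of_nonneg_right hcQ (by positivity)
      have h3 : Q ^ 2 ≤ Q ^ 3 := pow_le_pow_right₀ (by linarith) (by norm_num)
      linarith) S.G (by
      intro X Y
      rw [edgePairs_eq]
      have := hjum X Y
      rw [show (Q⁻¹ * X.card * Y.card : ℝ) = X.card * Y.card / Q by
        field_simp]
      exact this) S.H S.H_le_G (by
      have h1 : (triangleCount S.H : ℝ) ≤ S.tau := by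
        refine S.triangles_le _ (fun t ht => ?_)
        simp only [mem_filter] at ht
        exact ht.2
      have h2 := S.tau_le hlk0.le
      have h3 : (S.lam - S.kap) / 2 * S.K ≤ Q ^ 3 * Q ^ 11 := by
        apply mul_le_mul _ _ hK0 (by positivity)
        · linarith
        · rw [hK]
          have : 0 < Q ^ 8 := by positivity
          linarith
      have h4 : δ * Q⁻¹ ^ 3 * (n : ℝ) ^ 3 = (δ * Q) * Q ^ 14 := by
        rw [hn]
        field_simp
      rw [h4]
      have h5 : 1 * Q ^ 14 ≤ (δ * Q) * Q ^ 14 := mul_le_mul_of_nonneg_right hδQ (by positivity)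
      have h6 : Q ^ 3 * Q ^ 11 = 1 * Q ^ 14 := by ring
      linarith)
  -- contradiction
  have h1 := S.tau_eq
  have h2 := S.cover D hD3 hlk0.le
  have h3 : S.K - 3 * S.Sig ≤ 24 * D.card := by
    have : (S.lam - S.kap) * (S.K - 3 * S.Sig) ≤ (S.lam - S.kap) * (24 * D.card) := by
      linarith
    exact le_of_mul_le_mul_left this hlk0
  have h4 : 1 / 50 * Q⁻¹ * (n : ℝ) ^ 2 = 1 / 50 * Q ^ 11 := by
    rw [hn]
    field_simp
  rw [h4] at hD2
  rw [hK] at h3
  have h5 : 8 * Q ^ 10 ≤ Q ^ 11 := by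
    have : Q ^ 11 = Q * Q ^ 10 := by ring
    rw [this]
    exact mul_le_mul_of_nonneg_right hQ8 (by positivity)
  have h6 : 64 * Q ^ 8 ≤ Q ^ 10 := by
    have : Q ^ 10 = Q ^ 2 * Q ^ 8 := by ring
    rw [this]
    exact mul_le_mul_of_nonneg_right (by nlinarith) (by positivity)
  have h7 : 0 < Q ^ 10 := by positivity
  linarith

end Pool.Agent.Results.MP_9a0e6b_co.ExponentThreeOptimal
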